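import Pool.Agent.Q135.Nim

/-!
The subtraction set `{3,11,15}` is ultimately bipartite, and `S^ex = {3,9,11,15}`.
-/

namespace Pool.Agent.Results.MP_bd62ae_co.Expandable31115

open Q135.Nim

/-- The subtraction game with subtraction set `S` is ultimately bipartite: its (least ultimate)
period is 2 and from some point on the nim-values alternate `0,1,0,1,...`. -/
def UltimatelyBipartite (S : Finset ℕ) : Prop :=
  IsLeast {p | IsUltPeriod (nim S) p} 2 ∧
    ∃ n₀ : ℕ, ∀ k : ℕ, nim S (n₀ + 2 * k) = 0 ∧ nim S (n₀ + 2 * k + 1) = 1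

/-- The set `S^ex` of all positive integers `s` with `G (n + s) ≠ G n` for every `n`. -/
def Sex (S : Finset ℕ) : Set ℕ := {s | 0 < s ∧ ∀ n : ℕ, nim S (n + s) ≠ nim S n}

/-- The set `S^{*p} = {s + m p : s ∈ S, m ≥ 0}`. -/
def Sstar (S : Finset ℕ) (p : ℕ) : Set ℕ := {t | ∃ s ∈ S, ∃ m : ℕ, t = s + m * p}

/-- The first 26 values of the nim-sequence. -/
def tab : List ℕ :=
  [0, 0, 0, 1, 1, 1, 0, 0, 0, 1, 1, 1, 2, 2, 0, 3, 3, 1, 2, 2, 0, 3, 3, 1, 0, 2]

/-- The nim-sequence. -/
def f (n : ℕ) : ℕ := if n < 26 then tab.getD n 0 else n % 2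

theorem check1 : ∀ n < 45, ∀ s ∈ ({3, 11, 15} : Finset ℕ), 0 < s → s ≤ n →
    f (n - s) ≠ f n := by decide

theorem check2 : ∀ n < 45, ∀ m < f n, ∃ s ∈ ({3, 11, 15} : Finset ℕ), 0 < s ∧ s ≤ n ∧
    f (n - s) = m := by decide

theorem small (s : ℕ) (hs : s ∈ ({3, 11, 15} : Finset ℕ)) : s ≤ 15 ∧ s % 2 = 1 := by
  revert s; decide

theorem f_large (n : ℕ) (h : 26 ≤ n) : f n = n % 2 := by
  unfold f; rw [if_neg (by omega)]

theorem nim_f (n : ℕ) : nim {3, 11, 15} n = f n := by
  apply nim_eq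
  · intro n s hs h0 hle
    by_cases hn : n < 45
    · exact check1 n hn s hs h0 hle
    · obtain ⟨hs15, hodd⟩ := small s hs
      rw [f_large _ (by omega), f_large _ (by omega)]
      omega
  · intro n m hm
    by_cases hn : n < 45
    · exact check2 n hn m hm
    · rw [f_large _ (by omega)] at hm
      refine ⟨3, by decide, by norm_num, by omega, ?_⟩
      rw [f_large _ (by omega)]
      omega

set_option maxRecDepth 20000 in
theorem sex_check : ∀ s < 27, 0 < s → s ∉ ({3, 9, 11, 15} : Finset ℕ) →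
    ∃ n < 60, f (n + s) = f n := by decide

set_option maxRecDepth 20000 in
theorem sex_check2 : ∀ s ∈ ({3, 9, 11, 15} : Finset ℕ), s % 2 = 1 ∧ ∀ n < 26, f (n + s) ≠ f n := by
  decide

theorem sex_eq : Sex {3, 11, 15} = {3, 9, 11, 15} := by
  have hf : nim {3, 11, 15} = f := funext nim_f
  have key : ∀ s : ℕ, s ∈ Sex {3, 11, 15} ↔ s ∈ ({3, 9, 11, 15} : Finset ℕ) := by
    intro s
    constructor
    · rintro ⟨h0, hs⟩
      rw [hf] at hs
      by_contra hnot
      by_cases hs27 : s < 27
      · obtain ⟨n, -, hn⟩ := sex_check s hs27 h0 hnot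
        exact hs n hn
      · rcases Nat.even_or_odd s with he | ho
        · apply hs 26
          rw [f_large _ (by omega), f_large _ (by omega)]
          obtain ⟨k, rfl⟩ := he
          omega
        · apply hs 1
          rw [f_large _ (by omega)]
          obtain ⟨k, rfl⟩ := ho
          have : f 1 = 0 := by decide
          omega
    · intro hs
      obtain ⟨hodd, hsmall⟩ := sex_check2 s hs
      refine ⟨by omega, ?_⟩
      intro n
      rw [hf]
      by_cases hn : n < 26
      · exact hsmall n hn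
      · rw [f_large _ (by omega), f_large _ (by omega)]
        omega
  ext s
  rw [key]
  simp

/-- The subtraction game with subtraction set `S = {3,11,15}` is ultimately bipartite, and
`S^ex = {3,9,11,15}`, which is neither `S` nor `S^{*2}`. -/
theorem result :
    UltimatelyBipartite {3, 11, 15} ∧ Sex {3, 11, 15} = {3, 9, 11, 15} ∧
    Sex {3, 11, 15} ≠ (({3, 11, 15} : Finset ℕ) : Set ℕ) ∧
    Sex {3, 11, 15} ≠ Sstar {3, 11, 15} 2 := by
  have hf : nim {3, 11, 15} = f := funext nim_f
  refine ⟨⟨⟨⟨by norm_num, 26, ?_⟩, ?_⟩, 26, ?_⟩, sex_eq, ?_, ?_⟩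
  · intro n hn
    rw [hf, f_large _ (by omega), f_large _ (by omega)]
    omega
  · rintro p ⟨hp, n₀, h⟩
    by_contra hlt
    push Not at hlt
    have hp1 : p = 1 := by omega
    subst hp1
    have := h (n₀ + 26) (by omega)
    rw [hf, f_large _ (by omega), f_large _ (by omega)] at this
    omega
  · intro k
    rw [hf, f_large _ (by omega), f_large _ (by omega)]
    omega
  · rw [sex_eq]
    intro h
    have h9 : (9 : ℕ) ∈ ({3, 9, 11, 15} : Set ℕ) := by simp
    rw [h] at h9
    simp at h9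
  · rw [sex_eq]
    intro h
    have h5 : (5 : ℕ) ∈ Sstar {3, 11, 15} 2 := ⟨3, by decide, 1, by norm_num⟩
    rw [← h] at h5
    simp at h5

end Pool.Agent.Results.MP_bd62ae_co.Expandable31115
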